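import Pool.Agent.H199Z.Voj

namespace Pool.Agent.Results.MP_71c16a_nt.TwoPlaces

open NumberField Module Pool.Agent.H199Z.Voj

/-- Vojta's inequality for `X = P^n`, `D` a sum of `k`-rational hyperplanes in general position,
`S` the set of archimedean places of `k`, and all points defined over a finite extension `L/k`
with at most two archimedean places; in particular for all points of degree at most 2 when `k` has
one archimedean place.  `Z` is a finite union of hyperplanes, independent of `ε`;
`δ = 1` is the conjectured form and `ε = δ = 0` is allowed. -/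
theorem result (k : Type) [Field k] [NumberField k] (n q : ℕ) (l : Fin q → Fin (n + 1) → k)
    (hgen : ∀ s : Finset (Fin q), s.card ≤ n + 1 → LinearIndependent k (fun j : s => l j)) :
    ∃ Z : Finset (Fin (n + 1) → k), (∀ a ∈ Z, a ≠ 0) ∧ ∃ C : ℝ,
      ∀ ε : ℝ, 0 ≤ ε → ∀ δ : ℝ, 0 ≤ δ → δ ≤ 1 →
      ∀ (L : Type) [Field L] [NumberField L] [Algebra k L],
        (Fintype.card (InfinitePlace L) ≤ 2 ∨
          (Fintype.card (InfinitePlace k) = 1 ∧ finrank k L ≤ 2)) →
        ∀ x : Fin (n + 1) → L, x ≠ 0 → (∀ a ∈ Z, lin a x ≠ 0) →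
          (∀ j, lin (l j) x ≠ 0) →
          -((n : ℝ) + 1) * ht k x + prox l x ≤ ε * ht k x + δ * dk k L + C := by
  obtain ⟨Z, hZ, C, hC⟩ := main_raw l hgen
  refine ⟨Z, hZ, (finrank ℚ k : ℝ) * C + Real.log |(discr k : ℝ)|,
    fun ε hε δ hδ0 hδ1 L _ _ _ hL x hx hZx _ => ?_⟩
  have hcard : Fintype.card (InfinitePlace L) ≤ 2 :=
    hL.elim id fun h => card_le_two L h.1 h.2
  have h1 := hC L hcard x hx hZx
  have hfin : Module.Finite k L := Module.Finite.of_restrictScalars_finite ℚ k L
  have hd : (0 : ℝ) < finrank k L := by exact_mod_cast Module.finrank_pos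
  have hmul : (finrank ℚ L : ℝ) = (finrank ℚ k : ℝ) * finrank k L := by
    rw [← Module.finrank_mul_finrank ℚ k L]; push_cast; rfl
  have hlog : ∀ (F : Type) [Field F] [NumberField F], 0 ≤ Real.log |(discr F : ℝ)| := by
    intro F _ _
    have : (1 : ℤ) ≤ |discr F| := Int.one_le_abs (discr_ne_zero F)
    exact Real.log_nonneg (by exact_mod_cast this)
  have h2 : 0 ≤ ht k x := div_nonneg (Height.logHeight_nonneg x) hd.le
  have h3 : prox l x ≤ (n + 1) * ht k x + (finrank ℚ k : ℝ) * C := by
    unfold prox ht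
    rw [div_le_iff₀ hd]
    have : ((n + 1) * (Height.logHeight x / (finrank k L : ℝ)) + (finrank ℚ k : ℝ) * C) *
        (finrank k L : ℝ) = (n + 1) * Height.logHeight x + (finrank ℚ L : ℝ) * C := by
      rw [hmul]; field_simp
    rw [this]; exact h1
  have h4 : 0 ≤ Real.log |(discr L : ℝ)| / (finrank k L : ℝ) := div_nonneg (hlog L) hd.le
  have h5 := hlog k
  have h6 : 0 ≤ δ * dk k L + Real.log |(discr k : ℝ)| := by
    unfold dk
    nlinarith [mul_nonneg hδ0 h4, mul_nonneg (sub_nonneg.mpr hδ1) h5]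
  nlinarith [mul_nonneg hε h2]

end Pool.Agent.Results.MP_71c16a_nt.TwoPlaces
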